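import Pool.Agent.Y278.BF.P5
set_option linter.unusedVariables false
open Set Filter Topology
open scoped ENNReal

namespace Pool.Agent.Results.MP_290f58_an.DomainPrinciple

open Pool.Agent.Y278.BF

/-- Let `p ≥ 1` be real and not an even integer, let `n > p` be an integer and let `X` be a real
normed space containing an isomorphic copy of `ℓ_p`.
(1), (2) The boundary rule holds for maps to every space `F` that is finite dimensional or has a bump
of class `C^n`, in particular to every inner product space.
(3) No equivalent norm on `X` is `n` times Gateaux differentiable off the origin.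
(4) A continuous function with bounded support that is `n` times Gateaux differentiable where it does
not vanish is zero.
(5) The norm of `X` cannot be approximated on a ball of radius `R` to within less than `R / 2` by
such functions. -/
theorem result.{u, v} (p : ℝ≥0∞) [Fact (1 ≤ p)] (hp : p ≠ ⊤) (heven : ∀ k : ℕ, p.toReal ≠ 2 * k)
    (n : ℕ) (hn : p.toReal < n) (X : Type u) [NormedAddCommGroup X] [NormedSpace ℝ X]
    (hX : ContainsEll p X) :
    (∀ (F : Type v) [NormedAddCommGroup F] [NormedSpace ℝ F], FiniteDimensional ℝ F ∨ HasBump n F →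
      BoundaryRule n X F) ∧
    (∀ (F : Type v) [NormedAddCommGroup F] [InnerProductSpace ℝ F], BoundaryRule n X F) ∧
    (¬ ∃ N : X → ℝ, IsEquivNorm N ∧ SmoothOn n N {0}ᶜ) ∧
    (∀ b : X → ℝ, Continuous b → Bornology.IsBounded (Function.support b) →
      SmoothOn n b (Function.support b) → b = 0) ∧
    (∀ (f : X → ℝ) (R δ : ℝ), 0 < R → ContinuousOn f (Metric.closedBall 0 R) →
      SmoothOn n f (Metric.ball 0 R) → (∀ x ∈ Metric.closedBall (0 : X) R, |f x - ‖x‖| ≤ δ) →
      R / 2 ≤ δ) := by
  have hn1 : 1 ≤ n := by
    have h0 : 0 ≤ p.toReal := ENNReal.toReal_nonneg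
    have : (0:ℝ) < n := lt_of_le_of_lt h0 hn
    exact_mod_cast this
  obtain ⟨T, c, hc, hT⟩ := hX
  refine ⟨fun F _ _ hF D hD hDb f hf h => ?_, fun F _ _ D hD hDb f hf h => ?_, ?_,
    fun b hb hbs h => ?_, fun f R δ hR hf h hδ => ?_⟩
  · have hF' : HasBump n F := by
      rcases hF with h1 | h1
      · exact hasBump_of n F
      · exact h1
    exact domain_gen hp heven hn T hc hT hF' hD hDb hf (h.elim (dirTaylorOn_of hn1 hD) id)
  · exact domain_gen hp heven hn T hc hT (hasBump_of n F) hD hDb hf (h.elim (dirTaylorOn_of hn1 hD) id)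
  · rintro ⟨N, hN, h⟩
    exact no_norm hp heven hn T hc hT hN (h.elim (dirTaylorOn_of hn1 isOpen_compl_singleton) id)
  · exact no_bump hp heven hn T hc hT hb hbs (h.elim (dirTaylorOn_of hn1 hb.isOpen_support) id)
  · exact no_approx hp heven hn T hc hT hR hf (h.elim (dirTaylorOn_of hn1 Metric.isOpen_ball) id) hδ

end Pool.Agent.Results.MP_290f58_an.DomainPrinciple
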